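import Mathlib

set_option autoImplicit false

namespace Pool.Agent.Results.MP_d44cd8_gt.Answer

open Set Topology Filter Metric Function BoundedContinuousFunction

universe u v

/-- The based space `(X, x₀)` has a metric analog. -/
def HasMetricAnalog {X : Type u} [TopologicalSpace X] (x₀ : X) : Prop :=
  ∃ (M : Type u) (_ : MetricSpace M) (m₀ : M) (q : M → X), IsOpenQuotientMap q ∧ q m₀ = x₀ ∧
    ∀ (A : Type v) [MetricSpace A] (a₀ : A),
      (∀ f : A → X, Continuous f → f a₀ = x₀ →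
        ∃ g : A → M, Continuous g ∧ g a₀ = m₀ ∧ q ∘ g = f) ∧
      ∀ f g : A → M, Continuous f → Continuous g → f a₀ = m₀ → g a₀ = m₀ → q ∘ f = q ∘ g →
        ∃ F : A × unitInterval → M, Continuous F ∧ (∀ a, F (a, 0) = f a) ∧ (∀ a, F (a, 1) = g a) ∧
          (∀ s, F (a₀, s) = m₀) ∧ ∀ a s t, q (F (a, s)) = q (F (a, t))

/-- The open balls of some quasimetric form a base of the topology of `X`. -/
def Quasimetrizable (X : Type u) [TopologicalSpace X] : Prop :=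
  ∃ d : X → X → ℝ, (∀ x y, 0 ≤ d x y) ∧ (∀ x, d x x = 0) ∧ (∀ x y z, d x z ≤ d x y + d y z) ∧
    TopologicalSpace.IsTopologicalBasis {B | ∃ x r, 0 < r ∧ B = {y | d x y < r}}

theorem basis {X : Type u} [TopologicalSpace X] {d : X → X → ℝ} (d0 : ∀ x, d x x = 0)
    (d1 : ∀ x y z, d x z ≤ d x y + d y z)
    (b : TopologicalSpace.IsTopologicalBasis {B | ∃ x r, 0 < r ∧ B = {y | d x y < r}}) (x : X) :
    (𝓝 x).HasBasis (0 < ·) fun r => {y | d x y < r} :=
  ⟨fun U => ⟨fun h => by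
    obtain ⟨_, ⟨y, r, -, rfl⟩, a, c⟩ := b.mem_nhds_iff.1 h
    exact ⟨r - d y x, sub_pos.2 a, fun z k => c ((d1 y x z).trans_lt (lt_sub_iff_add_lt'.1 k))⟩,
  fun ⟨r, a, c⟩ => b.mem_nhds_iff.2 ⟨_, ⟨x, r, a, rfl⟩, (d0 x).trans_lt a, c⟩⟩⟩

variable {X ι : Type u} [TopologicalSpace X] {Y : ι → Type u} {e : ∀ i, Y i → X}
  {d : ∀ i, Y i → Y i → ℝ} (e1 : ∀ i, Injective (e i)) (d0 : ∀ i y z, 0 ≤ d i y z)
  (d1 : ∀ i x y z, d i x z ≤ d i x y + d i y z)
  (b : ∀ i y, (𝓝 (e i y)).HasBasis (0 < ·) fun r => e i '' {z | d i y z < r})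
  (c : ∀ x, ∃ i y, e i y = x)
include e1 d0 d1 b c

theorem lift {A : Type*} [MetricSpace A] {f : A → X} (h : Continuous f) :
    ∃ L : A → ι × Set X → ℝ, (∀ a j, 0 ≤ L a j ∧ L a j ≤ 1) ∧
      (∀ a a' j, dist (L a j) (L a' j) ≤ dist a a') ∧ ∀ a,
        (∀ ε > 0, ∀ᶠ y in 𝓝 (f a), ∀ j, ε ≤ L a j → y ∈ j.2) ∧
        ∀ U ∈ 𝓝 (f a), ∃ j, 0 < L a j ∧ j.2 ⊆ U := by
  obtain ⟨W, w1, w2, w3, w4⟩ := precise_refinement (fun i => f ⁻¹' range (e i))
    (fun i => (isOpen_iff_mem_nhds.2 (forall_mem_range.2 fun y => mem_of_superset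
      ((b i y).mem_of_mem one_pos) (image_subset_range _ _))).preimage h)
    (eq_univ_of_forall fun a => mem_iUnion.2 (c _))
  let S : ι × Set X → Set (A × ℝ) := fun j => {p | p.2 = 1 ∨ (p.1 ∉ W j.1 ∧ p.2 = 0) ∨
    ∃ y z, e j.1 y = f p.1 ∧ e j.1 z ∉ j.2 ∧ p.2 = d j.1 y z}
  have k : ∀ a j t, 0 ≤ t → (a, t) ∈ S j → infDist (a, (0 : ℝ)) (S j) ≤ t := fun a j t h k =>
    (infDist_le_dist_of_mem k).trans (by simp [Prod.dist_eq, h, abs_of_nonneg h])
  refine ⟨fun a j => infDist (a, (0 : ℝ)) (S j), fun a j => ⟨infDist_nonneg,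
    k a j 1 zero_le_one (.inl rfl)⟩, fun a a' j => by
      simpa using (lipschitz_infDist_pt (S j)).dist_le_mul (a, 0) (a', 0),
    fun a => ⟨fun ε ε0 => ?_, fun U u => ?_⟩⟩
  · choose y hy using fun i : {i | a ∈ W i} => w4 i i.2
    have := (w3.point_finite a).to_subtype
    filter_upwards [iInter_mem.2 fun i => hy i ▸ (b _ (y i)).mem_of_mem ε0] with x l j m
    have n : a ∈ W j.1 := by_contra fun n =>
      (ε0.trans_le m).not_ge (k a j 0 le_rfl (.inr (.inl ⟨n, rfl⟩)))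
    obtain ⟨z, o, rfl⟩ := mem_iInter.1 l ⟨_, n⟩
    exact by_contra fun p => (m.trans (k a j _ (d0 _ _ _)
      (.inr (.inr ⟨_, z, hy ⟨_, n⟩, p, rfl⟩)))).not_gt o
  obtain ⟨i, n⟩ := mem_iUnion.1 (w2.ge (mem_univ a))
  obtain ⟨y, hy⟩ := w4 i n
  obtain ⟨r, r0, l⟩ := (b i y).mem_iff.1 (hy ▸ u)
  refine ⟨(i, U), (infDist_pos_iff_notMem_closure ⟨(a, 1), .inl rfl⟩).1 fun m => ?_, subset_rfl⟩
  obtain ⟨⟨a', t⟩, ⟨⟨p, x, q, s⟩, o⟩, m⟩ := mem_closure_iff_nhds.1 m _ (prod_mem_nhds (inter_mem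
    ((w1 i).mem_nhds n) (h.continuousAt (hy ▸ (b i y).mem_of_mem (half_pos r0))))
    (Iio_mem_nhds (lt_min one_pos (half_pos r0))))
  replace o := lt_min_iff.1 (mem_Iio.1 o)
  rcases m with rfl | m | ⟨x', z, m, v, rfl⟩
  · exact o.1.false
  · exact m.1 p
  obtain rfl := e1 i (s.trans m.symm)
  exact v (l ⟨z, (d1 i y x z).trans_lt ((add_lt_add q o.2).trans_eq (add_halves r)), rfl⟩)

theorem analog [T0Space X] (x₀ : X) : HasMetricAnalog.{u, v} x₀ := by
  obtain ⟨V, hV⟩ : ∃ V : ℕ → Set X, (𝓝 x₀).HasBasis (fun _ => True) V := by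
    obtain ⟨i, y, rfl⟩ := c x₀
    exact ⟨fun n => e i '' {z | d i y z < 1 / (n + 1)}, (b i y).to_hasBasis (fun r k => (exists_nat_one_div_lt k).imp fun n k =>
      ⟨trivial, image_mono fun z l => lt_trans l k⟩) fun n _ =>
        ⟨1 / (n + 1), Nat.one_div_pos_of_nat, subset_rfl⟩⟩
  letI : TopologicalSpace (ι × Set X ⊕ ℕ) := ⊥
  have : DiscreteTopology (ι × Set X ⊕ ℕ) := ⟨rfl⟩
  let v : ι × Set X ⊕ ℕ → Set X := Sum.elim Prod.snd V
  let Q := fun x (m : ι × Set X ⊕ ℕ →ᵇ ℝ) => ∀ ε > 0, ∀ᶠ y in 𝓝 x, ∀ j, ε ≤ m j → y ∈ v j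
  let P := fun x (m : ι × Set X ⊕ ℕ →ᵇ ℝ) =>
    0 ≤ m ∧ Q x m ∧ ∀ U ∈ 𝓝 x, ∃ j, 0 < m j ∧ v j ⊆ U
  have ad : ∀ x m n, Q x m → Q x n → Q x (m + n) := fun x m n k l ε h => by
    filter_upwards [k _ (half_pos h), l _ (half_pos h)] with y k l j o
    by_cases p : ε / 2 ≤ m j
    exacts [k j p, l j (by simp at o; linarith)]
  have mo : ∀ x m n, m ≤ n → Q x n → Q x m := fun x m n k l ε h =>
    (l ε h).mono fun y l j o => l j (o.trans (k j))
  have le : ∀ x y m, P x m → P y m → 𝓝 x ≤ 𝓝 y := fun x y m k l U u => by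
    obtain ⟨j, o, p⟩ := l.2.2 U u
    exact (k.2.1 _ o).mono fun z k => p (k j le_rfl)
  choose q hq using fun m : {m // ∃ x, P x m} => m.2
  have un : ∀ m x, P x m.1 → q m = x := fun m x k =>
    nhds_injective ((le _ _ _ (hq m) k).antisymm (le _ _ _ k (hq m)))
  have li : ∀ {A : Type _} [MetricSpace A] {f : A → X}, Continuous f →
      ∃ g : A → ι × Set X ⊕ ℕ →ᵇ ℝ, Continuous g ∧ ∀ a, P (f a) (g a) := fun h => by
    obtain ⟨L, l1, l2, l3⟩ := lift e1 d0 d1 b c h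
    refine ⟨fun a => ofNormedAddCommGroupDiscrete (Sum.elim (L a) 0) 1 (Sum.rec (fun j => by
      simpa [abs_le, (l1 a j).2] using neg_one_lt_zero.le.trans (l1 a j).1) (by simp)),
      (LipschitzWith.of_dist_le_mul (K := 1) fun a a' => (dist_le (by positivity)).2 (Sum.rec
        (fun j => by simpa using l2 a a' j) (by simp))).continuous, fun a =>
      ⟨Sum.rec (fun j => (l1 a j).1) fun _ => le_rfl, fun ε h => ((l3 a).1 ε h).mono fun y k =>
        Sum.rec k fun _ l => (h.not_ge l).elim, fun U u => ?_⟩⟩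
    obtain ⟨j, k⟩ := (l3 a).2 U u
    exact ⟨.inl j, k⟩
  have gl : ∀ x m n (ε : ℝ), 0 < ε → Q x m⁺ → P x n → P x (m⁺ + n ⊓ ε • 1) := fun x m n ε h k l =>
    ⟨add_nonneg (posPart_nonneg _) (le_inf l.1 fun j => by simpa using h.le),
      ad _ _ _ k (mo _ _ _ inf_le_left l.2.1), fun U u => (l.2.2 U u).imp fun j o =>
        ⟨add_pos_of_nonneg_of_pos (posPart_nonneg m j) (lt_min o.1 (by simpa using h)), o.2⟩⟩
  have pp : ∀ (m : ι × Set X ⊕ ℕ →ᵇ ℝ) j (ε s : ℝ), 0 < ε → ε ≤ (m - s • 1)⁺ j → ε + s ≤ m j :=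
    fun m j ε s h k => by
      simpa [le_sub_iff_add_le] using (le_max_iff.1 k).resolve_right h.not_ge
  let μ : ι × Set X ⊕ ℕ →ᵇ ℝ := ofNormedAddCommGroupDiscrete (Sum.elim 0 fun n => (1 / 2) ^ n) 1
    (Sum.rec (by simp) fun n => by simpa using inv_le_one_of_one_le₀ (one_le_pow₀ one_le_two))
  have tr : ∀ x (s : ℝ), 0 ≤ s → (∀ n, s < (1 / 2) ^ n → V n ∈ 𝓝 x) → Q x (μ - s • 1)⁺ :=
    fun x s h k ε l => by
      have : {n : ℕ | ε + s ≤ (1 / 2) ^ n}.Finite := by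
        simpa [← Nat.cofinite_eq_atTop] using (tendsto_pow_atTop_nhds_zero_of_lt_one one_half_pos.le
          one_half_lt_one).eventually_lt_const (add_pos_of_pos_of_nonneg l h)
      filter_upwards [(eventually_all_finite this).2 fun n o =>
        k n ((lt_add_of_pos_left s l).trans_le o)] with y o j p
      replace p : ε + s ≤ μ j := pp _ _ _ _ l p
      cases j
      exacts [((add_pos_of_pos_of_nonneg l h).not_ge p).elim, o _ p]
  have p0 : P x₀ (μ - (0 : ℝ) • 1)⁺ := ⟨posPart_nonneg _, tr _ _ le_rfl fun n _ =>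
    hV.mem_of_mem trivial, fun U u => by
      obtain ⟨n, -, k⟩ := hV.mem_iff.1 u
      exact ⟨.inr n, by simp [μ], k⟩⟩
  choose β _ hβ using fun y : X => li (A := PUnit.{v + 1}) (f := fun _ => y) continuous_const
  refine ⟨_, inferInstance, ⟨_, x₀, p0⟩, q, ⟨fun y => ⟨⟨_, y, hβ y ⟨⟩⟩, un _ _ (hβ y _)⟩,
    continuous_iff_continuousAt.2 fun m U u => ?_, isOpenMap_iff_nhds_le.2 fun m U u => ?_⟩,
    un _ _ p0, fun A _ a₀ => ⟨fun f h k => ?_, fun f g h k l n o => ?_⟩⟩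
  · obtain ⟨j, k, l⟩ := (hq m).2.2 U u
    exact ((((continuous_eval_const j).comp continuous_subtype_val).tendsto m).eventually_const_lt
      k).mono fun n o => l (((hq n).2.1 _ o).self_of_nhds j le_rfl)
  · obtain ⟨ε, h, k⟩ := nhds_basis_closedBall.mem_iff.1 u
    filter_upwards [((hq m).2.1 ε h).eventually_nhds] with y l
    have := gl y (m.1 - ε • 1) _ ε h (fun δ o => l.mono fun z l j p => l j
      ((le_add_of_nonneg_left o.le).trans (pp _ _ _ _ o p))) (hβ y ⟨⟩)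
    refine un ⟨_, y, this⟩ _ this ▸ k ((dist_le h.le).2 fun j => ?_)
    have a : 0 ≤ m.1 j := (hq m).1 j
    have c : 0 ≤ β y ⟨⟩ j := (hβ y _).1 j
    show |max (m.1 j - ε * 1) 0 + min (β y ⟨⟩ j) (ε * 1) - m.1 j| ≤ ε
    rw [mul_one, abs_le]
    have := le_min c h.le
    have := min_le_right (β y ⟨⟩ j) ε
    rcases max_cases (m.1 j - ε) 0 with e | e <;> constructor <;> linarith
  · obtain ⟨G, g1, g2⟩ := li h
    choose w w0 w1 w2 using fun n => exists_continuous_zero_one_of_isClosed isClosed_singleton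
      (isOpen_interior.preimage h).isClosed_compl (disjoint_singleton_left.2 (not_not.2 (show
        f a₀ ∈ interior (V n) from k ▸ mem_interior_iff_mem_nhds.2 (hV.mem_of_mem trivial))))
    have su : ∀ n a, ‖(1 / 2 : ℝ) ^ n * w n a‖ ≤ (1 / 2) ^ n := fun n a => by
      simpa [abs_le, (w2 n a).2] using neg_one_lt_zero.le.trans (w2 n a).1
    have s0 : ∀ n a, 0 ≤ (1 / 2 : ℝ) ^ n * w n a := fun n a =>
      mul_nonneg (by positivity) (w2 n a).1
    have := continuous_tsum (fun n => by fun_prop) summable_geometric_two su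
    have l : (μ - (∑' n, (1 / 2 : ℝ) ^ n * w n a₀) • 1)⁺ + G a₀ ⊓ dist a₀ a₀ • 1 =
        (μ - (0 : ℝ) • 1)⁺ := by simp [w0 _ rfl, (g2 a₀).1]
    have p : ∀ a, P (f a) ((μ - (∑' n, (1 / 2 : ℝ) ^ n * w n a) • 1)⁺ + G a ⊓ dist a a₀ • 1) :=
      fun a => by
        rcases eq_or_ne a a₀ with rfl | n
        · exact l ▸ k ▸ p0
        exact gl _ _ _ _ (dist_pos.2 n) (tr _ _ (tsum_nonneg (s0 · a)) fun n o =>
          mem_interior_iff_mem_nhds.1 (by_contra fun p => o.not_ge (le_trans (by simp [w1 n p])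
            ((summable_geometric_two.of_norm_bounded (su · a)).le_tsum n fun m _ => s0 m a)))) (g2 a)
    exact ⟨fun a => ⟨_, _, p a⟩, .subtype_mk (by fun_prop) _, Subtype.ext l,
      funext fun a => un _ _ (p a)⟩
  · have p : ∀ z : A × unitInterval, P (q (f z.1)) ((1 - z.2.1) • (f z.1).1 + z.2.1 • (g z.1).1) :=
      fun ⟨a, t, t0, t1⟩ => by
        have x := hq (f a)
        have y : P (q (f a)) _ := (show q (g a) = q (f a) from (congrFun o a).symm) ▸ hq (g a)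
        have s := fun j => mul_nonneg t0 (y.1 j)
        refine ⟨fun j => add_nonneg (mul_nonneg (sub_nonneg.2 t1) (x.1 j)) (s j),
          mo _ _ _ (fun j => add_le_add (mul_le_of_le_one_left (x.1 j) (sub_le_self _ t0))
            (mul_le_of_le_one_left (y.1 j) t1)) (ad _ _ _ x.2.1 y.2.1), fun U u => ?_⟩
        rcases t1.eq_or_lt with rfl | t1
        · simpa using y.2.2 U u
        exact (x.2.2 U u).imp fun j z =>
          ⟨add_pos_of_pos_of_nonneg (mul_pos (sub_pos.2 t1) z.1) (s j), z.2⟩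
    exact ⟨fun z => ⟨_, _, p z⟩, .subtype_mk (by fun_prop) _, fun a => Subtype.ext (by simp),
      fun a => Subtype.ext (by simp), fun s => Subtype.ext (by simp [l, n, ← add_smul]),
      fun a s t => (un _ _ (p _)).trans (un _ _ (p _)).symm⟩

omit e1 d0 d1 b c in
theorem result :
    (∃ (X : Type) (_ : TopologicalSpace X), T2Space X ∧ Nonempty X ∧
      (∀ x₀ : X, HasMetricAnalog.{0, v} x₀) ∧ ¬ Quasimetrizable X) ∧
    ∀ (X : Type u) [TopologicalSpace X] [T0Space X] (x₀ : X),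
      Quasimetrizable X → HasMetricAnalog.{u, v} x₀ := by
  refine ⟨?_, fun X _ _ x₀ ⟨d, d0, d1, d2, b⟩ => analog (ι := PUnit) (e := fun _ => id)
    (d := fun _ => d) (fun _ => injective_id) (fun _ => d0) (fun _ => d2)
    (fun _ y => by simpa using basis d1 d2 b y) (fun x => ⟨⟨⟩, x, rfl⟩) x₀⟩
  let W := (Cardinal.aleph.{0} 1).ord.ToType
  letI : TopologicalSpace W := Preorder.topology W
  have : OrderTopology W := ⟨rfl⟩
  have c : ∀ x : W, (Iio x).Countable := fun x => by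
    exact (Cardinal.countable_iff_lt_aleph_one _).2
      ((Cardinal.mk_Iio_lt x (by simp [W])).trans_eq (by simp [W]))
  have : Uncountable W := Cardinal.aleph0_lt_mk_iff.1 (by simp [W])
  have s : ∀ a : ℕ → W, ∃ x, ∀ n, a n < x := fun a => by
    by_contra! k
    exact not_countable_univ ((countable_iUnion fun n => (c (a n)).insert (a n)).mono fun x _ =>
      mem_iUnion.2 ((k x).imp fun n h => h.eq_or_lt))
  have l : ∀ a : ℕ → W, StrictMono a → ∃ x, (∀ n, a n < x) ∧ Tendsto a atTop (𝓝 x) := fun a h => by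
    obtain ⟨x, k⟩ := s a
    obtain ⟨x, k, o⟩ := wellFounded_lt.has_min (upperBounds (range a))
      ⟨x, forall_mem_range.2 fun n => (k n).le⟩
    exact ⟨x, fun n => (h n.lt_succ_self).trans_le (k ⟨_, rfl⟩),
      tendsto_atTop_isLUB h.monotone ⟨k, fun y p => not_lt.1 (o y p)⟩⟩
  refine ⟨W, _, inferInstance, inferInstance, fun x₀ => ?_, fun ⟨d, d0, d1, d2, b⟩ => ?_⟩
  · have := fun x => (c x).to_subtype
    letI := fun x : W => TopologicalSpace.metrizableSpaceMetric (Iio x)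
    exact analog (Y := fun x : W => Iio x) (e := fun _ => Subtype.val) (d := fun _ => dist)
      (fun _ => Subtype.val_injective) (fun _ _ _ => dist_nonneg) (fun _ => dist_triangle)
      (fun i y => by
        simpa only [← isOpen_Iio.isOpenEmbedding_subtypeVal.map_nhds_eq, ball, dist_comm y]
          using nhds_basis_ball.map _)
      (fun x => (s fun _ => x).imp fun y k => ⟨⟨x, k 0⟩, rfl⟩) x₀
  replace b := basis d1 d2 b
  have : ∀ n : ℕ, ∃ β, ∀ γ > β, ∀ δ, ∃ α > δ, d α γ < 1 / (n + 1) := fun n => by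
    by_contra! k
    choose γ g δ h using k
    obtain ⟨β⟩ : Nonempty W := inferInstance
    obtain ⟨x, p, o⟩ := l (fun m => γ ((fun β => max (γ β) (δ β))^[m] β))
      (strictMono_nat_of_lt_succ fun m => by
        rw [iterate_succ_apply']
        exact (le_max_left _ _).trans_lt (g _))
    obtain ⟨m, r⟩ := (o.eventually ((b x).mem_of_mem Nat.one_div_pos_of_nat)).exists
    refine (h _ x (lt_trans ?_ (p (m + 1)))).not_gt r
    rw [iterate_succ_apply']
    exact (le_max_right _ _).trans_lt (g _)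
  choose β k using this
  obtain ⟨γ, g⟩ := s β
  choose α h k using fun n => k n γ (g n)
  let a : ℕ → W := Nat.rec (α 0 γ) fun n => α (n + 1)
  obtain ⟨x, p, o⟩ := l a (strictMono_nat_of_lt_succ fun m => h _ _)
  obtain ⟨r, r0, t⟩ := (b x).mem_iff.1 (Ioi_mem_nhds ((h 0 γ).trans (p 0)))
  obtain ⟨m, y, z⟩ := ((o.eventually ((b x).mem_of_mem (half_pos r0))).and
    (tendsto_one_div_add_atTop_nhds_zero_nat.eventually_lt_const (half_pos r0))).exists
  have : d (a m) γ < 1 / (m + 1) := by cases m <;> exact k _ _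
  exact lt_irrefl γ (t (show d x γ < r by linarith [d2 x (a m) γ, show d x (a m) < _ from y]))

end Pool.Agent.Results.MP_d44cd8_gt.Answer
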